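import Mathlib
import Pool.Agent.X317.Kos.Mon
import Pool.Agent.H677R3.RegKoszul

/-!
# The Betti numbers of a monomial ideal and the combinatorial Koszul complexes
-/

set_option autoImplicit false
set_option linter.all false

open Finset Pool.Agent.X317.Kos Pool.Agent.H677R3.EdgeReg MvPolynomial

namespace Pool.Agent.X317.RP

variable {n : ℕ} {k : Type*} [Field k]

/-- the multigraded components of a chain -/
noncomputable abbrev mc (f : Finset (Fin n) → MvPolynomial (Fin n) k) (b : Fin n →₀ ℕ)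
    (T : Finset (Fin n)) : k := Pool.Agent.H677R3.EdgeReg.comp f b T

theorem coe_dif (J : Ideal (MvPolynomial (Fin n) k)) (f : Finset (Fin n) → ↥J)
    (T : Finset (Fin n)) :
    ((dif ↥J (X : Fin n → MvPolynomial (Fin n) k) f T : ↥J) : MvPolynomial (Fin n) k) =
      koszulD (fun T => (f T : MvPolynomial (Fin n) k)) T := by
  have h := dif_map (X : Fin n → MvPolynomial (Fin n) k) X J.subtype.toAddMonoidHom
    (fun j m => J.subtype.map_smul (X j) m) f
  have h1 := congrFun h T
  refine h1.symm.trans ?_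
  rw [dif_apply, koszulD]
  refine Finset.sum_congr rfl fun j _ => ?_
  rw [zsmul_eq_mul]
  unfold sgn
  push_cast
  rfl

theorem mc_supp {J : Ideal (MvPolynomial (Fin n) k)} {P : (Fin n → ℕ) → Prop}
    (hJ : ∀ p, p ∈ J ↔ ∀ c ∈ p.support, P ⇑c) {i : ℕ} {f : Finset (Fin n) → ↥J}
    (hf : ∀ T, T.card ≠ i → f T = 0) (b : Fin n →₀ ℕ) (T : Finset (Fin n))
    (h : mc (fun T => (f T : MvPolynomial (Fin n) k)) b T ≠ 0) : KK P b T ∧ T.card = i := by
  unfold mc Pool.Agent.H677R3.EdgeReg.comp at h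
  split_ifs at h with hle
  · have hs : b - ind T ∈ ((f T : ↥J) : MvPolynomial (Fin n) k).support :=
      MvPolynomial.mem_support_iff.mpr h
    refine ⟨⟨hle, (hJ _).mp (f T).2 _ hs⟩, ?_⟩
    by_contra hne
    have h' : coeff (b - ind T) ((f T : ↥J) : MvPolynomial (Fin n) k) ≠ 0 := h
    rw [hf T hne] at h'
    exact h' (by rw [ZeroMemClass.coe_zero, coeff_zero])
  · exact absurd rfl h

theorem ideal_boundary {J : Ideal (MvPolynomial (Fin n) k)} {P : (Fin n → ℕ) → Prop}
    (hJ : ∀ p, p ∈ J ↔ ∀ c ∈ p.support, P ⇑c) {i : ℕ} {f : Finset (Fin n) → ↥J}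
    (hf : ∀ T, T.card ≠ i → f T = 0)
    (hex : ∀ b, ∃ g : Finset (Fin n) → k, (∀ T, g T ≠ 0 → KK P b T ∧ T.card = i + 1) ∧
      ∀ T, cd g T = mc (fun T => (f T : MvPolynomial (Fin n) k)) b T) :
    f ∈ boundaries (X : Fin n → MvPolynomial (Fin n) k) ↥J i := by
  classical
  choose G hG1 hG2 using hex
  let B : Finset (Fin n →₀ ℕ) := Finset.univ.biUnion
    (fun T => ((f T : ↥J) : MvPolynomial (Fin n) k).support.image (· + ind T))
  have hB : ∀ b, b ∉ B → ∀ T, mc (fun T => (f T : MvPolynomial (Fin n) k)) b T = 0 := by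
    intro b hb T
    by_contra h
    apply hb
    unfold mc Pool.Agent.H677R3.EdgeReg.comp at h
    split_ifs at h with hle
    · refine Finset.mem_biUnion.mpr ⟨T, Finset.mem_univ _, Finset.mem_image.mpr ⟨b - ind T,
        MvPolynomial.mem_support_iff.mpr h, tsub_add_cancel_of_le hle⟩⟩
    · exact absurd rfl h
  let g : Finset (Fin n) → MvPolynomial (Fin n) k :=
    fun T => ∑ b ∈ B, MvPolynomial.monomial (b - ind T) (G b T)
  have hg : ∀ b T, mc g b T = if b ∈ B then G b T else 0 := by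
    intro b T
    have key : ∀ b' ∈ B, ind T ≤ b → (MvPolynomial.monomial (b' - ind T) (G b' T)).coeff (b - ind T) =
        if b' = b then G b T else 0 := by
      intro b' _ hle
      rw [MvPolynomial.coeff_monomial]
      by_cases h0 : G b' T = 0
      · by_cases h1 : b' = b
        · subst h1; simp [h0]
        · rw [h0]; simp [h1]
      · have hle' := (hG1 b' T h0).1.1
        by_cases h1 : b' = b
        · subst h1; simp
        · rw [if_neg h1, if_neg]
          intro h2
          apply h1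
          rw [← tsub_add_cancel_of_le hle', ← tsub_add_cancel_of_le hle, h2]
    unfold mc Pool.Agent.H677R3.EdgeReg.comp
    by_cases hle : ind T ≤ b
    · rw [if_pos hle]
      simp only [g]
      rw [MvPolynomial.coeff_sum, Finset.sum_congr rfl (fun b' hb' => key b' hb' hle)]
      rw [Finset.sum_ite_eq' B b]
    · rw [if_neg hle]
      split_ifs with hb
      · by_contra h
        exact hle (hG1 b T (fun h' => h h'.symm)).1.1
      · rfl
  have hgJ : ∀ T, g T ∈ J := by
    intro T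
    rw [hJ]
    intro c hc
    rw [MvPolynomial.mem_support_iff, ← comp_add_ind] at hc
    have hc' : mc g (c + ind T) T ≠ 0 := hc
    rw [hg] at hc'
    split_ifs at hc' with h
    · have := (hG1 _ _ hc').1.2
      rwa [add_tsub_cancel_right] at this
    · exact absurd rfl hc'
  refine boundary_of hf ⟨fun T => ⟨g T, hgJ T⟩, ?_⟩
  funext T
  apply Subtype.ext
  rw [coe_dif]
  change koszulD g T = (f T : MvPolynomial (Fin n) k)
  ext c
  have h1 := comp_add_ind (koszulD g) c T
  have h2 := comp_add_ind (fun T => (f T : MvPolynomial (Fin n) k)) c T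
  rw [← h1]
  refine Eq.trans ?_ h2
  rw [comp_koszulD]
  set b := c + ind T
  have : Pool.Agent.H677R3.EdgeReg.comp g b = fun T => if b ∈ B then G b T else 0 := by
    funext T; exact hg b T
  rw [this]
  by_cases hb : b ∈ B
  · simp only [if_pos hb]
    exact hG2 b T
  · simp only [if_neg hb]
    rw [cd_zero]
    exact (hB b hb T).symm

/-- the chain of multidegree `b` -/
noncomputable def mono {J : Ideal (MvPolynomial (Fin n) k)} {P : (Fin n → ℕ) → Prop}
    (hJ : ∀ p, p ∈ J ↔ ∀ c ∈ p.support, P ⇑c) (b : Fin n →₀ ℕ) (a : Finset (Fin n) → k)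
    (ha : ∀ T, a T ≠ 0 → KK P b T) (T : Finset (Fin n)) : ↥J :=
  ⟨MvPolynomial.monomial (b - ind T) (a T), by
    rw [hJ]
    intro c hc
    rw [MvPolynomial.mem_support_iff, coeff_monomial] at hc
    split_ifs at hc with h
    · rw [← h]; exact (ha T hc).2
    · exact absurd rfl hc⟩

theorem mc_mono {J : Ideal (MvPolynomial (Fin n) k)} {P : (Fin n → ℕ) → Prop}
    (hJ : ∀ p, p ∈ J ↔ ∀ c ∈ p.support, P ⇑c) (b : Fin n →₀ ℕ) (a : Finset (Fin n) → k)
    (ha : ∀ T, a T ≠ 0 → KK P b T) (b' : Fin n →₀ ℕ) (T : Finset (Fin n)) :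
    mc (fun T => (mono hJ b a ha T : MvPolynomial (Fin n) k)) b' T = if b' = b then a T else 0 := by
  unfold mc Pool.Agent.H677R3.EdgeReg.comp
  simp only [mono, MvPolynomial.coeff_monomial]
  by_cases h0 : a T = 0
  · simp [h0]
  · have hle := (ha T h0).1
    by_cases h1 : b' = b
    · subst h1; simp [hle]
    · rw [if_neg h1]
      split_ifs with h2 h3
      · exfalso
        apply h1
        rw [← tsub_add_cancel_of_le hle, ← tsub_add_cancel_of_le h2, h3]
      · rfl
      · rfl

theorem mono_cycle {J : Ideal (MvPolynomial (Fin n) k)} {P : (Fin n → ℕ) → Prop}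
    (hJ : ∀ p, p ∈ J ↔ ∀ c ∈ p.support, P ⇑c) (b : Fin n →₀ ℕ) (a : Finset (Fin n) → k)
    (ha : ∀ T, a T ≠ 0 → KK P b T) {i : ℕ} (hai : ∀ T, a T ≠ 0 → T.card = i)
    (hc : ∀ T, cd a T = 0) :
    mono hJ b a ha ∈ cycles (X : Fin n → MvPolynomial (Fin n) k) ↥J i := by
  rw [mem_cycles]
  refine ⟨fun T hT => ?_, ?_⟩
  · have h0 : a T = 0 := by
      by_contra h; exact hT (hai T h)
    apply Subtype.ext
    simp only [mono, h0, map_zero, ZeroMemClass.coe_zero]
  · funext T
    apply Subtype.ext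
    rw [coe_dif]
    ext c
    rw [Pi.zero_apply, ZeroMemClass.coe_zero, coeff_zero, ← comp_add_ind, comp_koszulD]
    set b' := c + ind T
    have : Pool.Agent.H677R3.EdgeReg.comp
        (fun T => (mono hJ b a ha T : MvPolynomial (Fin n) k)) b' =
        fun T => if b' = b then a T else 0 := by
      funext T; exact mc_mono hJ b a ha b' T
    rw [this]
    by_cases h : b' = b
    · simp only [if_pos h]; exact hc T
    · simp only [if_neg h]; exact cd_zero T

theorem of_mono_boundary {J : Ideal (MvPolynomial (Fin n) k)} {P : (Fin n → ℕ) → Prop}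
    (hJ : ∀ p, p ∈ J ↔ ∀ c ∈ p.support, P ⇑c) (b : Fin n →₀ ℕ) (a : Finset (Fin n) → k)
    (ha : ∀ T, a T ≠ 0 → KK P b T) {i : ℕ}
    (h : mono hJ b a ha ∈ boundaries (X : Fin n → MvPolynomial (Fin n) k) ↥J i) :
    ∃ g : Finset (Fin n) → k, (∀ T, g T ≠ 0 → KK P b T ∧ T.card = i + 1) ∧ ∀ T, cd g T = a T := by
  obtain ⟨w, hw1, hw2⟩ := mem_boundaries.1 h
  refine ⟨mc (fun T => (w T : MvPolynomial (Fin n) k)) b, mc_supp hJ hw1 b, fun T => ?_⟩
  have h1 := comp_koszulD (fun T => (w T : MvPolynomial (Fin n) k)) b T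
  refine h1.symm.trans ?_
  have h2 : koszulD (fun T => (w T : MvPolynomial (Fin n) k)) =
      fun T => (mono hJ b a ha T : MvPolynomial (Fin n) k) := by
    funext T
    rw [← coe_dif, hw2]
  rw [h2]
  exact (mc_mono hJ b a ha b T).trans (if_pos rfl)

theorem mc_cycle {J : Ideal (MvPolynomial (Fin n) k)} {i : ℕ} {f : Finset (Fin n) → ↥J}
    (hf : f ∈ cycles (X : Fin n → MvPolynomial (Fin n) k) ↥J i) (b : Fin n →₀ ℕ)
    (T : Finset (Fin n)) : cd (mc (fun T => (f T : MvPolynomial (Fin n) k)) b) T = 0 := by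
  refine (comp_koszulD (fun T => (f T : MvPolynomial (Fin n) k)) b T).symm.trans ?_
  have h2 : koszulD (fun T => (f T : MvPolynomial (Fin n) k)) = fun _ => 0 := by
    funext T
    rw [← coe_dif, (mem_cycles.1 hf).2]
    rfl
  rw [h2]
  unfold Pool.Agent.H677R3.EdgeReg.comp
  rw [coeff_zero]
  split_ifs <;> rfl

theorem betti_zero {J : Ideal (MvPolynomial (Fin n) k)} {P : (Fin n → ℕ) → Prop}
    (hJ : ∀ p, p ∈ J ↔ ∀ c ∈ p.support, P ⇑c) {i : ℕ}
    (h : ∀ b (a : Finset (Fin n) → k), (∀ T, a T ≠ 0 → KK P b T ∧ T.card = i) →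
      (∀ T, cd a T = 0) →
      ∃ g : Finset (Fin n) → k, (∀ T, g T ≠ 0 → KK P b T ∧ T.card = i + 1) ∧ ∀ T, cd g T = a T) :
    betti (n := n) k ↥J i = 0 := by
  have h1 : Subsingleton (Homology (X : Fin n → MvPolynomial (Fin n) k) ↥J i) := by
    refine Submodule.Quotient.subsingleton_iff.2 ?_
    rw [eq_top_iff]
    rintro ⟨f, hf⟩ -
    change f ∈ boundaries (X : Fin n → MvPolynomial (Fin n) k) ↥J i
    exact ideal_boundary hJ (mem_cycles.1 hf).1
      fun b => h b _ (mc_supp hJ (mem_cycles.1 hf).1 b) (mc_cycle hf b)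
  unfold betti
  exact Module.finrank_zero_of_subsingleton

theorem betti_one {J : Ideal (MvPolynomial (Fin n) k)} {P : (Fin n → ℕ) → Prop}
    (hJ : ∀ p, p ∈ J ↔ ∀ c ∈ p.support, P ⇑c) {i : ℕ} (b0 : Fin n →₀ ℕ)
    (a0 : Finset (Fin n) → k) (ha0 : ∀ T, a0 T ≠ 0 → KK P b0 T ∧ T.card = i)
    (hc0 : ∀ T, cd a0 T = 0)
    (hn0 : ¬ ∃ g : Finset (Fin n) → k, (∀ T, g T ≠ 0 → KK P b0 T ∧ T.card = i + 1) ∧
      ∀ T, cd g T = a0 T)
    (h0 : ∀ (a : Finset (Fin n) → k), (∀ T, a T ≠ 0 → KK P b0 T ∧ T.card = i) →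
      (∀ T, cd a T = 0) → ∃ (c : k) (g : Finset (Fin n) → k),
      (∀ T, g T ≠ 0 → KK P b0 T ∧ T.card = i + 1) ∧ ∀ T, cd g T = a T - c * a0 T)
    (h : ∀ b, b ≠ b0 → ∀ (a : Finset (Fin n) → k), (∀ T, a T ≠ 0 → KK P b T ∧ T.card = i) →
      (∀ T, cd a T = 0) →
      ∃ g : Finset (Fin n) → k, (∀ T, g T ≠ 0 → KK P b T ∧ T.card = i + 1) ∧ ∀ T, cd g T = a T) :
    betti (n := n) k ↥J i = 1 := by
  classical
  set f0 : Finset (Fin n) → ↥J := mono hJ b0 a0 (fun T hT => (ha0 T hT).1) with hf0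
  have hf0c : f0 ∈ cycles (X : Fin n → MvPolynomial (Fin n) k) ↥J i :=
    mono_cycle hJ b0 a0 _ (fun T hT => (ha0 T hT).2) hc0
  unfold betti
  refine _root_.finrank_eq_one
    (Submodule.Quotient.mk (⟨f0, hf0c⟩ : ↥(cycles (X : Fin n → MvPolynomial (Fin n) k) ↥J i))) ?_ ?_
  · rw [Ne, Submodule.Quotient.mk_eq_zero]
    intro hb
    exact hn0 (of_mono_boundary hJ b0 a0 (fun T hT => (ha0 T hT).1) hb)
  · intro w
    obtain ⟨⟨f, hf⟩, rfl⟩ := Submodule.Quotient.mk_surjective _ w
    obtain ⟨c, g, hg1, hg2⟩ := h0 _ (mc_supp hJ (mem_cycles.1 hf).1 b0) (mc_cycle hf b0)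
    refine ⟨c, ?_⟩
    have h1 : c • (⟨f0, hf0c⟩ : ↥(cycles (X : Fin n → MvPolynomial (Fin n) k) ↥J i)) =
        ((C c : MvPolynomial (Fin n) k)) • ⟨f0, hf0c⟩ := by
      rw [← MvPolynomial.algebraMap_eq, algebraMap_smul]
    symm
    rw [← Submodule.Quotient.mk_smul, Submodule.Quotient.eq, h1]
    set f1 : Finset (Fin n) → ↥J := f - (C c : MvPolynomial (Fin n) k) • f0 with hf1
    change f1 ∈ boundaries (X : Fin n → MvPolynomial (Fin n) k) ↥J i
    have hmc : ∀ b T, mc (fun T => (f1 T : MvPolynomial (Fin n) k)) b T =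
        mc (fun T => (f T : MvPolynomial (Fin n) k)) b T - c * if b = b0 then a0 T else 0 := by
      intro b T
      rw [← mc_mono hJ b0 a0 (fun T hT => (ha0 T hT).1) b T]
      unfold mc Pool.Agent.H677R3.EdgeReg.comp
      split_ifs
      · have : ((f1 T : ↥J) : MvPolynomial (Fin n) k) = (f T : MvPolynomial (Fin n) k) -
            C c * (f0 T : MvPolynomial (Fin n) k) := rfl
        change coeff (b - ind T) ((f1 T : ↥J) : MvPolynomial (Fin n) k) =
          coeff (b - ind T) ((f T : ↥J) : MvPolynomial (Fin n) k) -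
            c * coeff (b - ind T) ((f0 T : ↥J) : MvPolynomial (Fin n) k)
        rw [this, coeff_sub, coeff_C_mul]
      · rw [mul_zero, sub_zero]
    refine ideal_boundary hJ (fun T hT => ?_) fun b => ?_
    · rw [hf1, Pi.sub_apply, Pi.smul_apply, (mem_cycles.1 hf).1 T hT, (mem_cycles.1 hf0c).1 T hT,
        smul_zero, sub_zero]
    · by_cases hb : b = b0
      · subst hb
        refine ⟨g, hg1, fun T => ?_⟩
        rw [hg2, hmc, if_pos rfl]
      · obtain ⟨g', hg1', hg2'⟩ := h b hb _ (mc_supp hJ (mem_cycles.1 hf).1 b) (mc_cycle hf b)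
        refine ⟨g', hg1', fun T => ?_⟩
        rw [hg2', hmc, if_neg hb, mul_zero, sub_zero]

/-- relative acyclicity when the family is invariant under `v` in the levels that matter -/
theorem relAcyc_levels {Q C : Finset (Fin n) → Prop} {l : ℕ} (v : Fin n)
    (hC : ∀ T, v ∉ T → (C T ↔ C (insert v T))) (h1 : ∀ T, Q T → C T)
    (h2 : ∀ T, C T → l ≤ T.card + 1 → Q T) : RelAcyc k Q l := by
  classical
  intro a ha hac
  refine ⟨hv v a, ?_, ?_⟩
  · intro T hT
    unfold hv at hT
    split_ifs at hT with hvT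
    · have h3 : a (T.erase v) ≠ 0 := fun h => hT (by rw [h, mul_zero])
      obtain ⟨h4, h5⟩ := ha _ h3
      have h6 : T.card = l + 1 := by
        rw [← h5, Finset.card_erase_of_mem hvT]
        have : 0 < T.card := Finset.card_pos.mpr ⟨v, hvT⟩
        omega
      refine ⟨h2 T ?_ (by omega), h6⟩
      have := (hC (T.erase v) (Finset.notMem_erase _ _)).1 (h1 _ h4)
      rwa [Finset.insert_erase hvT] at this
    · exact absurd rfl hT
  · intro T hT
    have h5 := homotopy v a T
    have h6 : hv v (cd a) T = 0 := by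
      unfold hv
      split_ifs with hvT
      · have hCT : C (T.erase v) := (hC (T.erase v) (Finset.notMem_erase _ _)).2 (by
          rw [Finset.insert_erase hvT]
          exact h1 T hT)
        have hpos : 0 < T.card := Finset.card_pos.mpr ⟨v, hvT⟩
        by_cases hl : T.card = l
        · rw [hac _ (h2 _ hCT (by rw [Finset.card_erase_of_mem hvT]; omega)), mul_zero]
        · have h7 : cd a (T.erase v) = 0 := by
            unfold cd
            refine Finset.sum_eq_zero fun j hj => ?_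
            rw [Finset.mem_compl] at hj
            by_contra h3
            have h4 := (ha (insert j (T.erase v)) (fun h5 => h3 (by rw [h5, mul_zero]))).2
            rw [Finset.card_insert_of_notMem hj, Finset.card_erase_of_mem hvT] at h4
            omega
          rw [h7, mul_zero]
      · rfl
    rw [h6, add_zero] at h5
    exact h5

end Pool.Agent.X317.RP
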