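import Mathlib
import Pool.Agent.X317.RP.Transfer

/-!
# The real projective plane with six vertices
-/

set_option autoImplicit false
set_option linter.all false

open Finset Pool.Agent.H677R3.EdgeReg

namespace Pool.Agent.X317.RP

variable {k : Type*} [Field k]

/-- the last three variables -/
def EE : Finset (Fin 9) := {6, 7, 8}

/-- the minimal nonfaces of the real projective plane with six vertices -/
def NF : Finset (Finset (Fin 9)) :=
  {{0, 1, 2}, {0, 1, 3}, {0, 2, 4}, {0, 3, 5}, {0, 4, 5}, {1, 2, 5}, {1, 3, 4}, {1, 4, 5},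
    {2, 3, 4}, {2, 3, 5}}

/-- `T` contains the last three variables and meets all the nonfaces -/
def Fsp (T : Finset (Fin 9)) : Prop := EE ⊆ T ∧ ∀ G ∈ NF, ¬ G ⊆ Tᶜ

set_option maxRecDepth 10000 in
theorem NF_card : ∀ G ∈ NF, G.card = 3 := by decide

set_option maxRecDepth 10000 in
theorem NF_EE : ∀ G ∈ NF, EE ⊆ Gᶜ := by decide

theorem Fsp_of_card {T : Finset (Fin 9)} (h : EE ⊆ T) (hT : 7 ≤ T.card) : Fsp T := by
  refine ⟨h, fun G hG hGT => ?_⟩
  have h1 := Finset.card_le_card hGT
  rw [NF_card G hG, Finset.card_compl, Fintype.card_fin] at h1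
  omega

theorem compl_mem_of_not_Fsp {T : Finset (Fin 9)} (h : EE ⊆ T) (hT : T.card = 6) (hF : ¬ Fsp T) :
    Tᶜ ∈ NF := by
  unfold Fsp at hF
  push Not at hF
  obtain ⟨G, hG, hGT⟩ := hF h
  have h1 : G = Tᶜ := by
    refine Finset.eq_of_subset_of_card_le hGT ?_
    rw [NF_card G hG, Finset.card_compl, Fintype.card_fin, hT]
  rw [← h1]
  exact hG

theorem not_Fsp_compl {G : Finset (Fin 9)} (hG : G ∈ NF) : ¬ Fsp Gᶜ := by
  rintro ⟨-, h⟩
  exact h G hG (by rw [compl_compl])

theorem rel (a' : Finset (Fin 9) → k) (hs : ∀ T, EE ⊆ T → a' T ≠ 0 → Tᶜ ∈ NF)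
    (hc : ∀ T, EE ⊆ T → cd a' T = 0) (R G1 G2 : Finset (Fin 9)) (j1 j2 : Fin 9) (m1 m2 : ℕ)
    (h1 : EE ⊆ Rᶜ) (hj1 : j1 ∈ R) (hj2 : j2 ∈ R) (h12 : j1 ≠ j2)
    (ho : ∀ j ∈ R, j ≠ j1 → j ≠ j2 → R.erase j ∉ NF) (hG1 : R.erase j1 = G1)
    (hG2 : R.erase j2 = G2) (hm1 : (Rᶜ.filter (· < j1)).card = m1)
    (hm2 : (Rᶜ.filter (· < j2)).card = m2) :
    (-1 : k) ^ m1 * a' G1ᶜ + (-1) ^ m2 * a' G2ᶜ = 0 := by
  have h2 := hc Rᶜ h1
  unfold cd at h2
  rw [compl_compl] at h2
  have h3 : ∑ j ∈ R, sg k j Rᶜ * a' (insert j Rᶜ) =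
      ∑ j ∈ ({j1, j2} : Finset (Fin 9)), sg k j Rᶜ * a' (insert j Rᶜ) := by
    symm
    refine Finset.sum_subset ?_ ?_
    · intro j hj
      rw [Finset.mem_insert, Finset.mem_singleton] at hj
      rcases hj with rfl | rfl
      · exact hj1
      · exact hj2
    · intro j hj hj'
      rw [Finset.mem_insert, Finset.mem_singleton, not_or] at hj'
      have h4 : a' (insert j Rᶜ) = 0 := by
        by_contra h5
        have h6 := hs _ (h1.trans (Finset.subset_insert _ _)) h5
        rw [← Finset.compl_erase, compl_compl] at h6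
        exact ho j hj hj'.1 hj'.2 h6
      rw [h4, mul_zero]
  rw [h3, Finset.sum_pair h12, ← Finset.compl_erase, ← Finset.compl_erase, hG1, hG2] at h2
  unfold sg at h2
  rw [hm1, hm2] at h2
  exact h2

/-- **The second homology of the real projective plane.** -/
theorem plane (a' : Finset (Fin 9) → k) (hs : ∀ T, EE ⊆ T → a' T ≠ 0 → Tᶜ ∈ NF)
    (hc : ∀ T, EE ⊆ T → cd a' T = 0) :
    (2 : k) * a' {0, 1, 2}ᶜ = 0 ∧ ∀ G ∈ NF, a' Gᶜ = a' {0, 1, 2}ᶜ := by
  have r1 := rel a' hs hc {0, 1, 2, 3} {0, 1, 3} {0, 1, 2} 2 3 0 0 (by decide) (by decide)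
    (by decide) (by decide) (by decide) (by decide) (by decide) (by decide) (by decide)
  have r2 := rel a' hs hc {0, 1, 2, 4} {0, 2, 4} {0, 1, 2} 1 4 0 1 (by decide) (by decide)
    (by decide) (by decide) (by decide) (by decide) (by decide) (by decide) (by decide)
  have r3 := rel a' hs hc {0, 1, 2, 5} {1, 2, 5} {0, 1, 2} 0 5 0 2 (by decide) (by decide)
    (by decide) (by decide) (by decide) (by decide) (by decide) (by decide) (by decide)
  have r4 := rel a' hs hc {0, 1, 3, 4} {1, 3, 4} {0, 1, 3} 0 4 0 1 (by decide) (by decide)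
    (by decide) (by decide) (by decide) (by decide) (by decide) (by decide) (by decide)
  have r5 := rel a' hs hc {0, 1, 3, 5} {0, 3, 5} {0, 1, 3} 1 5 0 2 (by decide) (by decide)
    (by decide) (by decide) (by decide) (by decide) (by decide) (by decide) (by decide)
  have r6 := rel a' hs hc {0, 2, 3, 4} {2, 3, 4} {0, 2, 4} 0 3 0 1 (by decide) (by decide)
    (by decide) (by decide) (by decide) (by decide) (by decide) (by decide) (by decide)
  have r7 := rel a' hs hc {0, 2, 3, 5} {2, 3, 5} {0, 3, 5} 0 2 0 1 (by decide) (by decide)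
    (by decide) (by decide) (by decide) (by decide) (by decide) (by decide) (by decide)
  have r8 := rel a' hs hc {0, 2, 4, 5} {0, 4, 5} {0, 2, 4} 2 5 1 2 (by decide) (by decide)
    (by decide) (by decide) (by decide) (by decide) (by decide) (by decide) (by decide)
  have r9 := rel a' hs hc {1, 2, 4, 5} {1, 4, 5} {1, 2, 5} 2 4 1 2 (by decide) (by decide)
    (by decide) (by decide) (by decide) (by decide) (by decide) (by decide) (by decide)
  have r10 := rel a' hs hc {0, 3, 4, 5} {0, 4, 5} {0, 3, 5} 3 4 2 2 (by decide) (by decide)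
    (by decide) (by decide) (by decide) (by decide) (by decide) (by decide) (by decide)
  generalize hx : a' {0, 1, 2}ᶜ = x012 at *
  have e1 : a' {0, 1, 3}ᶜ = - x012 := by linear_combination r1
  have e2 : a' {0, 2, 4}ᶜ = x012 := by linear_combination r2
  have e3 : a' {1, 2, 5}ᶜ = - x012 := by linear_combination r3
  have e4 : a' {1, 3, 4}ᶜ = - x012 := by linear_combination r4 + e1
  have e5 : a' {0, 3, 5}ᶜ = x012 := by linear_combination r5 - e1
  have e6 : a' {2, 3, 4}ᶜ = x012 := by linear_combination r6 + e2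
  have e7 : a' {2, 3, 5}ᶜ = x012 := by linear_combination r7 + e5
  have e8 : a' {0, 4, 5}ᶜ = x012 := by linear_combination - r8 + e2
  have e9 : a' {1, 4, 5}ᶜ = - x012 := by linear_combination - r9 + e3
  have e10 : (2 : k) * x012 = 0 := by linear_combination r10 - e8 - e5
  have e11 : - x012 = x012 := by linear_combination - e10
  refine ⟨e10, fun G hG => ?_⟩
  unfold NF at hG
  simp only [Finset.mem_insert, Finset.mem_singleton] at hG
  rcases hG with rfl | rfl | rfl | rfl | rfl | rfl | rfl | rfl | rfl | rfl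
  · exact hx
  · rw [e1, e11]
  · exact e2
  · exact e5
  · exact e8
  · rw [e3, e11]
  · rw [e4, e11]
  · rw [e9, e11]
  · exact e6
  · exact e7

/-- the class of the projective plane in characteristic two -/
noncomputable def pl (k : Type*) [Field k] (T : Finset (Fin 9)) : k := if Tᶜ ∈ NF then 1 else 0

theorem pl_supp {T : Finset (Fin 9)} (h : pl k T ≠ 0) : Tᶜ ∈ NF := by
  unfold pl at h
  split_ifs at h with h1
  · exact h1
  · exact absurd rfl h

set_option maxRecDepth 10000 in
theorem two_faces : ∀ p q : Fin 9, p ≠ q → p ∉ EE → q ∉ EE →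
    ((insert p (insert q EE))ᶜ.filter
      (fun j => (insert j (insert p (insert q EE)))ᶜ ∈ NF)).card = 2 := by
  decide +kernel

theorem cd_pl (h2 : (2 : k) = 0) {T : Finset (Fin 9)} (hT : EE ⊆ T) : cd (pl k) T = 0 := by
  classical
  by_cases hcard : T.card = 5
  · have h1 : (T \ EE).card = 2 := by
      rw [Finset.card_sdiff_of_subset hT, hcard]
      rfl
    obtain ⟨p, q, hpq, hpqT⟩ := Finset.card_eq_two.1 h1
    have hp : p ∈ T \ EE := by rw [hpqT]; simp
    have hq : q ∈ T \ EE := by rw [hpqT]; simp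
    rw [Finset.mem_sdiff] at hp hq
    have hTe : T = insert p (insert q EE) := by
      rw [← Finset.sdiff_union_of_subset hT, hpqT]
      ext x
      simp only [Finset.mem_union, Finset.mem_insert, Finset.mem_singleton]
      tauto
    have hneg : (-1 : k) = 1 := by linear_combination - h2
    have hsg : ∀ j, sg k j T = 1 := by
      intro j
      unfold sg
      rw [hneg, one_pow]
    have h3 : cd (pl k) T = ∑ j ∈ Tᶜ, if (insert j T)ᶜ ∈ NF then (1 : k) else 0 := by
      unfold cd
      refine Finset.sum_congr rfl fun j _ => ?_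
      rw [hsg, one_mul, pl]
    rw [h3, Finset.sum_boole, hTe, two_faces p q hpq hp.2 hq.2]
    exact_mod_cast h2
  · unfold cd
    refine Finset.sum_eq_zero fun j hj => ?_
    rw [Finset.mem_compl] at hj
    by_contra h
    have h1 := pl_supp (k := k) (T := insert j T) (fun h' => h (by rw [h', mul_zero]))
    have h3 := NF_card _ h1
    rw [Finset.card_compl, Finset.card_insert_of_notMem hj, Fintype.card_fin] at h3
    omega

theorem Fsp_insert {T : Finset (Fin 9)} (h : Fsp T) (j : Fin 9) : Fsp (insert j T) := by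
  refine ⟨h.1.trans (Finset.subset_insert _ _), fun G hG hGT => h.2 G hG (hGT.trans ?_)⟩
  exact Finset.compl_subset_compl.2 (Finset.subset_insert _ _)

theorem cd_level {n : ℕ} {a : Finset (Fin n) → k} {i : ℕ} (ha : ∀ T, a T ≠ 0 → T.card = i + 1)
    {T : Finset (Fin n)} (h : cd a T ≠ 0) : T.card = i := by
  unfold cd at h
  obtain ⟨j, hj, hj2⟩ := Finset.exists_ne_zero_of_sum_ne_zero h
  rw [Finset.mem_compl] at hj
  have h4 := ha (insert j T) (fun h5 => hj2 (by rw [h5, mul_zero]))
  rw [Finset.card_insert_of_notMem hj] at h4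
  omega

theorem rel_cycle (a : Finset (Fin 9) → k) (ha : ∀ T, a T ≠ 0 → Fsp T ∧ T.card = 7)
    (hc : ∀ T, Fsp T → cd a T = 0) :
    (2 : k) * cd a {0, 1, 2}ᶜ = 0 ∧ ∀ G ∈ NF, cd a Gᶜ = cd a {0, 1, 2}ᶜ := by
  refine plane (cd a) ?_ (fun T _ => cd_cd a T)
  intro T hT hne
  exact compl_mem_of_not_Fsp hT (cd_level (fun T hT => (ha T hT).2) hne) (fun h => hne (hc T h))

theorem hv_level {n : ℕ} {e : Finset (Fin n) → k} {i : ℕ} {v : Fin n}
    (he : ∀ T, e T ≠ 0 → T.card = i) {T : Finset (Fin n)} (h : hv v e T ≠ 0) :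
    v ∈ T ∧ e (T.erase v) ≠ 0 ∧ T.card = i + 1 := by
  unfold hv at h
  split_ifs at h with hvT
  · have h3 : e (T.erase v) ≠ 0 := fun h' => h (by rw [h', mul_zero])
    have h4 := he _ h3
    rw [Finset.card_erase_of_mem hvT] at h4
    have : 0 < T.card := Finset.card_pos.mpr ⟨_, hvT⟩
    exact ⟨hvT, h3, by omega⟩
  · exact absurd rfl h

theorem zero_notMem_EE : (0 : Fin 9) ∉ EE := by decide

theorem cd_hv_zero {e : Finset (Fin 9) → k} (hc : ∀ T, EE ⊆ T → cd e T = 0)
    {T : Finset (Fin 9)} (hT : EE ⊆ T) : cd (hv 0 e) T = e T := by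
  have h5 := homotopy 0 e T
  have h6 : hv 0 (cd e) T = 0 := by
    unfold hv
    split_ifs
    · rw [hc, mul_zero]
      intro x hx
      rw [Finset.mem_erase]
      exact ⟨fun h => zero_notMem_EE (h ▸ hx), hT hx⟩
    · rfl
  rw [h6, add_zero] at h5
  exact h5

theorem rel_boundary (e : Finset (Fin 9) → k) (he : ∀ T, e T ≠ 0 → EE ⊆ T ∧ T.card = 7)
    (hc : ∀ T, EE ⊆ T → cd e T = 0) :
    ∃ C : Finset (Fin 9) → k, (∀ T, C T ≠ 0 → Fsp T ∧ T.card = 8) ∧
      ∀ T, EE ⊆ T → cd C T = e T := by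
  refine ⟨hv 0 e, fun T hT => ?_, fun T hT => cd_hv_zero hc hT⟩
  obtain ⟨h1, h2, h3⟩ := hv_level (fun T hT => (he T hT).2) hT
  exact ⟨Fsp_of_card ((he _ h2).1.trans (Finset.erase_subset _ _)) (by omega), h3⟩

theorem acyc_ne_two (h2 : (2 : k) ≠ 0) : RelAcyc k Fsp 7 := by
  intro a ha hc
  obtain ⟨h3, h4⟩ := rel_cycle a ha hc
  have h5 := (mul_eq_zero.1 h3).resolve_left h2
  have h6 : ∀ T, EE ⊆ T → cd a T = 0 := by
    intro T hT
    by_contra hne
    have h7 := compl_mem_of_not_Fsp hT (cd_level (fun T hT => (ha T hT).2) hne)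
      (fun h => hne (hc T h))
    have h8 := h4 _ h7
    rw [compl_compl, h5] at h8
    exact hne h8
  obtain ⟨C, hC1, hC2⟩ := rel_boundary a (fun T hT => ⟨(ha T hT).1.1, (ha T hT).2⟩) h6
  exact ⟨C, hC1, fun T hT => hC2 T hT.1⟩

/-- the relative cycle of the projective plane -/
noncomputable def A0 (k : Type*) [Field k] : Finset (Fin 9) → k := hv 0 (pl k)

theorem pl_card {T : Finset (Fin 9)} (h : pl k T ≠ 0) : T.card = 6 := by
  have h1 := NF_card _ (pl_supp h)
  rw [Finset.card_compl, Fintype.card_fin] at h1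
  have := Finset.card_le_univ T
  rw [Fintype.card_fin] at this
  omega

theorem pl_EE {T : Finset (Fin 9)} (h : pl k T ≠ 0) : EE ⊆ T := by
  have h1 := NF_EE _ (pl_supp h)
  rwa [compl_compl] at h1

theorem pl_of_Fsp {T : Finset (Fin 9)} (h : Fsp T) : pl k T = 0 := by
  by_contra h1
  have h2 := not_Fsp_compl (pl_supp h1)
  rw [compl_compl] at h2
  exact h2 h

theorem A0_supp (T : Finset (Fin 9)) (h : A0 k T ≠ 0) : Fsp T ∧ T.card = 7 := by
  obtain ⟨h1, h2, h3⟩ := hv_level (fun T hT => pl_card hT) h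
  exact ⟨Fsp_of_card ((pl_EE h2).trans (Finset.erase_subset _ _)) (by omega), h3⟩

theorem cd_A0 (h2 : (2 : k) = 0) {T : Finset (Fin 9)} (hT : EE ⊆ T) : cd (A0 k) T = pl k T :=
  cd_hv_zero (fun T hT => cd_pl h2 hT) hT

theorem A0_not (h2 : (2 : k) = 0) : ¬ ∃ C : Finset (Fin 9) → k,
    (∀ T, C T ≠ 0 → Fsp T ∧ T.card = 8) ∧ ∀ T, Fsp T → cd C T = A0 k T := by
  rintro ⟨C, -, hC⟩
  have hG : ({0, 1, 2} : Finset (Fin 9)) ∈ NF := by decide
  have h1 := cd_cd C ({0, 1, 2} : Finset (Fin 9))ᶜ
  have h3 : cd (cd C) ({0, 1, 2} : Finset (Fin 9))ᶜ = cd (A0 k) ({0, 1, 2} : Finset (Fin 9))ᶜ := by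
    unfold cd
    refine Finset.sum_congr rfl fun j hj => ?_
    congr 1
    refine hC _ (Fsp_of_card ((NF_EE _ hG).trans (Finset.subset_insert _ _)) ?_)
    rw [Finset.mem_compl] at hj
    rw [Finset.card_insert_of_notMem hj]
    decide
  rw [h3, cd_A0 h2 (NF_EE _ hG)] at h1
  unfold pl at h1
  rw [compl_compl, if_pos hG] at h1
  exact one_ne_zero h1

theorem A0_span (h2 : (2 : k) = 0) (a : Finset (Fin 9) → k)
    (ha : ∀ T, a T ≠ 0 → Fsp T ∧ T.card = 7) (hc : ∀ T, Fsp T → cd a T = 0) :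
    ∃ (c : k) (C : Finset (Fin 9) → k), (∀ T, C T ≠ 0 → Fsp T ∧ T.card = 8) ∧
      ∀ T, Fsp T → cd C T = a T - c * A0 k T := by
  obtain ⟨-, h4⟩ := rel_cycle a ha hc
  set c := cd a {0, 1, 2}ᶜ with hcdef
  have hlin : ∀ T, cd (fun T => a T - c * A0 k T) T = cd a T - c * cd (A0 k) T := by
    intro T
    rw [cd_sub, cd_smul]
  have h6 : ∀ T, EE ⊆ T → cd (fun T => a T - c * A0 k T) T = 0 := by
    intro T hT
    rw [hlin, cd_A0 h2 hT]
    by_cases hF : Fsp T
    · rw [hc T hF, pl_of_Fsp hF, mul_zero, sub_zero]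
    · by_cases h6 : T.card = 6
      · have h7 := compl_mem_of_not_Fsp hT h6 hF
        have h8 := h4 _ h7
        rw [compl_compl] at h8
        rw [h8, pl, if_pos h7, mul_one, sub_self]
      · have h7 : cd a T = 0 := by
          by_contra h
          exact h6 (cd_level (fun T hT => (ha T hT).2) h)
        have h8 : pl k T = 0 := by
          by_contra h
          exact h6 (pl_card h)
        rw [h7, h8, mul_zero, sub_zero]
  obtain ⟨C, hC1, hC2⟩ := rel_boundary (fun T => a T - c * A0 k T) (by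
    intro T hT
    by_cases h : a T ≠ 0
    · exact ⟨(ha T h).1.1, (ha T h).2⟩
    · rw [not_not] at h
      have h' : A0 k T ≠ 0 := by
        intro h'
        apply hT
        rw [h, h', mul_zero, sub_zero]
      exact ⟨(A0_supp T h').1.1, (A0_supp T h').2⟩) h6
  exact ⟨c, C, hC1, fun T hT => hC2 T hT.1⟩

/-- **From the quotient to the ideal.** -/
theorem ideal_side {n : ℕ} {Kf Q : Finset (Fin n) → Prop} (v : Fin n) {i : ℕ}
    (hQ : ∀ T, Q T ↔ ¬ Kf T) (hup : ∀ T j, Q T → Q (insert j T)) (A : Finset (Fin n) → k)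
    (hA : ∀ T, A T ≠ 0 → Q T ∧ T.card = i + 1) (hAc : ∀ T, Q T → cd A T = 0)
    (hAn : ¬ ∃ C : Finset (Fin n) → k,
      (∀ T, C T ≠ 0 → Q T ∧ T.card = i + 2) ∧ ∀ T, Q T → cd C T = A T)
    (hAs : ∀ a : Finset (Fin n) → k, (∀ T, a T ≠ 0 → Q T ∧ T.card = i + 1) →
      (∀ T, Q T → cd a T = 0) → ∃ (c : k) (C : Finset (Fin n) → k),
        (∀ T, C T ≠ 0 → Q T ∧ T.card = i + 2) ∧ ∀ T, Q T → cd C T = a T - c * A T) :
    (∀ T, cd A T ≠ 0 → Kf T ∧ T.card = i) ∧
    (¬ ∃ g : Finset (Fin n) → k, (∀ T, g T ≠ 0 → Kf T ∧ T.card = i + 1) ∧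
      ∀ T, cd g T = cd A T) ∧
    (∀ (a : Finset (Fin n) → k), (∀ T, a T ≠ 0 → Kf T ∧ T.card = i) →
      (∀ T, cd a T = 0) → ∃ (c : k) (g : Finset (Fin n) → k),
      (∀ T, g T ≠ 0 → Kf T ∧ T.card = i + 1) ∧ ∀ T, cd g T = a T - c * cd A T) := by
  classical
  refine ⟨?_, ?_, ?_⟩
  · intro T hT
    refine ⟨?_, cd_level (fun T hT => (hA T hT).2) hT⟩
    by_contra h
    exact hT (hAc T ((hQ T).2 h))
  · rintro ⟨g, hg1, hg2⟩
    apply hAn
    have hAg : ∀ T, cd (fun T => A T - g T) T = 0 := by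
      intro T
      rw [cd_sub, hg2, sub_self]
    have hD : ∀ T, cd (hv v (fun T => A T - g T)) T = A T - g T := by
      intro T
      have h5 := homotopy v (fun T => A T - g T) T
      have h6 : hv v (cd (fun T => A T - g T)) T = 0 := by
        unfold hv
        split_ifs
        · rw [hAg, mul_zero]
        · rfl
      rw [h6, add_zero] at h5
      exact h5
    refine ⟨fun T => if Q T then hv v (fun T => A T - g T) T else 0, ?_, ?_⟩
    · intro T hT
      simp only at hT
      split_ifs at hT with h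
      · refine ⟨h, (hv_level (i := i + 1) (fun T hT => ?_) hT).2.2⟩
        by_cases h1 : A T ≠ 0
        · exact (hA T h1).2
        · rw [not_not] at h1
          refine (hg1 T fun h2 => hT ?_).2
          rw [h1, h2, sub_zero]
      · exact absurd rfl hT
    · intro T hT
      have h1 : cd (fun T => if Q T then hv v (fun T => A T - g T) T else 0) T =
          cd (hv v (fun T => A T - g T)) T := by
        unfold cd
        refine Finset.sum_congr rfl fun j hj => ?_
        simp only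
        rw [if_pos (hup T j hT)]
      rw [h1, hD]
      have h2 : g T = 0 := by
        by_contra h
        exact (hQ T).1 hT (hg1 T h).1
      rw [h2, sub_zero]
  · intro a ha hc
    have hAa : ∀ T, cd (hv v a) T = a T := by
      intro T
      have h5 := homotopy v a T
      have h6 : hv v (cd a) T = 0 := by
        unfold hv
        split_ifs
        · rw [hc, mul_zero]
        · rfl
      rw [h6, add_zero] at h5
      exact h5
    obtain ⟨c, C, hC1, hC2⟩ := hAs (fun T => if Q T then hv v a T else 0) (by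
      intro T hT

      split_ifs at hT with h
      · exact ⟨h, (hv_level (fun T hT => (ha T hT).2) hT).2.2⟩
      · exact absurd rfl hT) (by
      intro T hT
      have h1 : cd (fun T => if Q T then hv v a T else 0) T = cd (hv v a) T := by
        unfold cd
        refine Finset.sum_congr rfl fun j hj => ?_
        simp only
        rw [if_pos (hup T j hT)]
      rw [h1, hAa]
      by_contra h
      exact (hQ T).1 hT (ha T h).1)
    refine ⟨c, fun T => hv v a T - c * A T - cd C T, ?_, ?_⟩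
    · intro T hT
      refine ⟨?_, ?_⟩
      · by_contra h
        apply hT
        simp only
        have hq := (hQ T).2 h
        rw [hC2 T hq, if_pos hq]
        ring
      · by_contra hcard
        apply hT
        have h1 : hv v a T = 0 := by
          by_contra h
          exact hcard (hv_level (fun T hT => (ha T hT).2) h).2.2
        have h2 : A T = 0 := by
          by_contra h
          exact hcard (hA T h).2
        have h3 : cd C T = 0 := by
          by_contra h
          exact hcard (cd_level (fun T hT => (hC1 T hT).2) h)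
        simp only
        rw [h1, h2, h3]
        ring
    · intro T
      have h1 : cd (fun T => hv v a T - c * A T - cd C T) T =
          cd (hv v a) T - c * cd A T - cd (cd C) T := by
        rw [cd_sub, cd_sub, cd_smul]
      rw [h1, hAa, cd_cd, sub_zero]

end Pool.Agent.X317.RP
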