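import Mathlib
import Pool.Agent.X317.RP.Plane

/-!
# The powers of the ideal `(a⁴, a³b, ab³, b⁴) + a²b²Q + (z)`
-/

set_option autoImplicit false
set_option linter.all false

open Finset Pool.Agent.H677R3.EdgeReg MvPolynomial Pool.Agent.X317.Kos
open scoped Pointwise

namespace Pool.Agent.X317.RP

/-- the exponent of `a ^ p * b ^ q` (`a`, `b` are the variables of index `6`, `7`) -/
noncomputable def ab (p q : ℕ) : Fin 9 →₀ ℕ := Finsupp.single 6 p + Finsupp.single 7 q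

/-- The exponents of the generators of the ideal `(a⁴, a³b, ab³, b⁴) + a²b²Q + (z)`, `Q` being the
Stanley-Reisner ideal of the real projective plane with six vertices. -/
noncomputable def GG : Finset (Fin 9 →₀ ℕ) :=
  {Finsupp.single 8 1, ab 4 0, ab 3 1, ab 1 3, ab 0 4} ∪ NF.image (fun T => ab 2 2 + ind T)

/-- the monomials of the power of exponent `ℓ` -/
def Pl (ℓ : ℕ) (c : Fin 9 → ℕ) : Prop :=
  4 * (ℓ - c 8) ≤ c 6 + c 7 ∧ (ℓ - c 8 = 1 → c 6 = 2 → c 7 = 2 → ∃ G ∈ NF, ∀ g ∈ G, 1 ≤ c g)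

theorem Pl_mono (ℓ : ℕ) (c c' : Fin 9 → ℕ) (h : Pl ℓ c) (hcc : c ≤ c') : Pl ℓ c' := by
  have h6 : c 6 ≤ c' 6 := hcc 6
  have h7 : c 7 ≤ c' 7 := hcc 7
  have h8 : c 8 ≤ c' 8 := hcc 8
  refine ⟨by have := h.1; omega, fun h1 h2 h3 => ?_⟩
  have h4 := h.1
  obtain ⟨G, hG, hg⟩ := h.2 (by omega) (by omega) (by omega)
  exact ⟨G, hG, fun g hgG => (hg g hgG).trans (hcc g)⟩

theorem ab_6 (p q : ℕ) : ab p q 6 = p := by
  simp [ab, Finsupp.single_apply]

theorem ab_7 (p q : ℕ) : ab p q 7 = q := by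
  simp [ab, Finsupp.single_apply]

theorem ab_v (p q : ℕ) {v : Fin 9} (h6 : v ≠ 6) (h7 : v ≠ 7) : ab p q v = 0 := by
  simp [ab, Finsupp.single_apply, Ne.symm h6, Ne.symm h7]

theorem ab_8 (p q : ℕ) : ab p q 8 = 0 := ab_v p q (by decide) (by decide)

theorem ab_le {p q : ℕ} {c : Fin 9 →₀ ℕ} (h6 : p ≤ c 6) (h7 : q ≤ c 7) : ab p q ≤ c := by
  intro v
  by_cases hv6 : v = 6
  · rw [hv6, ab_6]
    exact h6
  · by_cases hv7 : v = 7
    · rw [hv7, ab_7]
      exact h7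
    · rw [ab_v p q hv6 hv7]
      exact Nat.zero_le _

theorem NF_lt : ∀ G ∈ NF, ∀ g ∈ G, g ≠ 6 ∧ g ≠ 7 ∧ g ≠ 8 := by
  intro G hG g hg
  have h1 := NF_EE G hG
  refine ⟨?_, ?_, ?_⟩
  · rintro rfl
    have h2 : (6 : Fin 9) ∈ Gᶜ := h1 (by decide)
    exact (Finset.mem_compl.1 h2) hg
  · rintro rfl
    have h2 : (7 : Fin 9) ∈ Gᶜ := h1 (by decide)
    exact (Finset.mem_compl.1 h2) hg
  · rintro rfl
    have h2 : (8 : Fin 9) ∈ Gᶜ := h1 (by decide)
    exact (Finset.mem_compl.1 h2) hg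

theorem add_mem {ℓ : ℕ} {c g : Fin 9 →₀ ℕ} (hc : Pl ℓ ⇑c) (hg : g ∈ GG) :
    Pl (ℓ + 1) ⇑(c + g) := by
  have h1 := hc.1
  unfold GG at hg
  simp only [Finset.mem_union, Finset.mem_insert, Finset.mem_singleton, Finset.mem_image] at hg
  unfold Pl
  simp only [Finsupp.coe_add, Pi.add_apply]
  rcases hg with (rfl | rfl | rfl | rfl | rfl) | ⟨T, hT, rfl⟩
  · have e6 : (Finsupp.single (8 : Fin 9) 1 : Fin 9 →₀ ℕ) 6 = 0 := by
      simp [Finsupp.single_apply]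
    have e7 : (Finsupp.single (8 : Fin 9) 1 : Fin 9 →₀ ℕ) 7 = 0 := by
      simp [Finsupp.single_apply]
    have e8 : (Finsupp.single (8 : Fin 9) 1 : Fin 9 →₀ ℕ) 8 = 1 := by
      simp [Finsupp.single_apply]
    rw [e6, e7, e8]
    refine ⟨by omega, fun h2 h3 h4 => ?_⟩
    obtain ⟨G, hG, hgG⟩ := hc.2 (by omega) (by omega) (by omega)
    exact ⟨G, hG, fun g hg => (hgG g hg).trans (Nat.le_add_right _ _)⟩
  · rw [ab_6, ab_7, ab_8]
    exact ⟨by omega, fun h2 h3 h4 => by omega⟩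
  · rw [ab_6, ab_7, ab_8]
    exact ⟨by omega, fun h2 h3 h4 => by omega⟩
  · rw [ab_6, ab_7, ab_8]
    exact ⟨by omega, fun h2 h3 h4 => by omega⟩
  · rw [ab_6, ab_7, ab_8]
    exact ⟨by omega, fun h2 h3 h4 => by omega⟩
  · have hT6 : (6 : Fin 9) ∉ T := fun h => (NF_lt T hT 6 h).1 rfl
    have hT7 : (7 : Fin 9) ∉ T := fun h => (NF_lt T hT 7 h).2.1 rfl
    have hT8 : (8 : Fin 9) ∉ T := fun h => (NF_lt T hT 8 h).2.2 rfl
    have e6 : (ab 2 2 + ind T) 6 = 2 := by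
      rw [Finsupp.add_apply, ab_6, ind_apply, if_neg hT6]
    have e7 : (ab 2 2 + ind T) 7 = 2 := by
      rw [Finsupp.add_apply, ab_7, ind_apply, if_neg hT7]
    have e8 : (ab 2 2 + ind T) 8 = 0 := by
      rw [Finsupp.add_apply, ab_8, ind_apply, if_neg hT8]
    rw [e6, e7, e8]
    refine ⟨by omega, fun h2 h3 h4 => ⟨T, hT, fun g hg => ?_⟩⟩
    rw [Finsupp.add_apply, ind_apply, if_pos hg]
    omega

theorem exists_sub {ℓ : ℕ} {c : Fin 9 →₀ ℕ} (hc : Pl (ℓ + 1) ⇑c) :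
    ∃ g ∈ GG, g ≤ c ∧ Pl ℓ ⇑(c - g) := by
  have h1 := hc.1
  have hmem : ∀ g : Fin 9 →₀ ℕ, (g = Finsupp.single 8 1 ∨ g = ab 4 0 ∨ g = ab 3 1 ∨ g = ab 1 3 ∨
      g = ab 0 4) → g ∈ GG := by
    intro g hg
    unfold GG
    rw [Finset.mem_union]
    left
    simpa only [Finset.mem_insert, Finset.mem_singleton] using hg
  by_cases h8 : 1 ≤ c 8
  · refine ⟨Finsupp.single 8 1, hmem _ (Or.inl rfl), ?_, ?_⟩
    · rw [Finsupp.single_le_iff]
      exact h8
    · unfold Pl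
      simp only [Finsupp.coe_tsub, Pi.sub_apply]
      have e6 : (Finsupp.single (8 : Fin 9) 1 : Fin 9 →₀ ℕ) 6 = 0 := by
        simp [Finsupp.single_apply]
      have e7 : (Finsupp.single (8 : Fin 9) 1 : Fin 9 →₀ ℕ) 7 = 0 := by
        simp [Finsupp.single_apply]
      have e8 : (Finsupp.single (8 : Fin 9) 1 : Fin 9 →₀ ℕ) 8 = 1 := by
        simp [Finsupp.single_apply]
      rw [e6, e7, e8]
      refine ⟨by omega, fun h2 h3 h4 => ?_⟩
      obtain ⟨G, hG, hgG⟩ := hc.2 (by omega) (by omega) (by omega)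
      refine ⟨G, hG, fun g hg => ?_⟩
      have h5 := (NF_lt G hG g hg).2.2
      have e : (Finsupp.single (8 : Fin 9) 1 : Fin 9 →₀ ℕ) g = 0 := by
        simp [Finsupp.single_apply, Ne.symm h5]
      rw [e]
      exact hgG g hg
  · have key : ∀ p q : ℕ, ab p q ∈ GG → p ≤ c 6 → q ≤ c 7 → 4 * ℓ ≤ c 6 - p + (c 7 - q) →
        (ℓ = 1 → c 6 - p = 2 → c 7 - q = 2 → False) → ∃ g ∈ GG, g ≤ c ∧ Pl ℓ ⇑(c - g) := by
      intro p q hpq hp hq hle hno
      refine ⟨ab p q, hpq, ab_le hp hq, ?_⟩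
      unfold Pl
      simp only [Finsupp.coe_tsub, Pi.sub_apply]
      rw [ab_6, ab_7, ab_8]
      exact ⟨by omega, fun h2 h3 h4 => (hno (by omega) h3 h4).elim⟩
    by_cases hA : ℓ = 1 ∧ c 6 = 6 ∧ c 7 = 2
    · exact key 3 1 (hmem _ (by simp)) (by omega) (by omega) (by omega) (by omega)
    by_cases hB : ℓ = 1 ∧ c 6 = 2 ∧ c 7 = 6
    · exact key 1 3 (hmem _ (by simp)) (by omega) (by omega) (by omega) (by omega)
    by_cases h64 : 4 ≤ c 6
    · exact key 4 0 (hmem _ (by simp)) (by omega) (by omega) (by omega) (by omega)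
    by_cases h74 : 4 ≤ c 7
    · exact key 0 4 (hmem _ (by simp)) (by omega) (by omega) (by omega) (by omega)
    by_cases h22 : c 6 = 2 ∧ c 7 = 2
    · obtain ⟨G, hG, hgG⟩ := hc.2 (by omega) h22.1 h22.2
      refine ⟨ab 2 2 + ind G, ?_, ?_, ?_⟩
      · unfold GG
        rw [Finset.mem_union]
        exact Or.inr (Finset.mem_image.2 ⟨G, hG, rfl⟩)
      · intro v
        rw [Finsupp.add_apply, ind_apply]
        by_cases hv : v ∈ G
        · have h5 := NF_lt G hG v hv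
          rw [ab_v 2 2 h5.1 h5.2.1, if_pos hv]
          have := hgG v hv
          omega
        · rw [if_neg hv]
          exact ab_le (c := c) (by omega) (by omega) v
      · unfold Pl
        simp only [Finsupp.coe_tsub, Pi.sub_apply]
        exact ⟨by omega, fun h2 => by omega⟩
    by_cases h63 : 3 ≤ c 6
    · exact key 3 1 (hmem _ (by simp)) (by omega) (by omega) (by omega) (by omega)
    · exact key 1 3 (hmem _ (by simp)) (by omega) (by omega) (by omega) (by omega)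

theorem pow_eq' (k : Type*) [Field k] (ℓ : ℕ) :
    monIdeal k GG ^ ℓ = Ideal.span ((fun e => monomial e (1 : k)) '' {c | Pl ℓ ⇑c}) := by
  induction ℓ with
  | zero =>
    rw [pow_zero, Ideal.one_eq_top, eq_comm, Ideal.eq_top_iff_one]
    refine Ideal.subset_span ⟨0, ?_, rfl⟩
    unfold Pl
    simp
  | succ ℓ ih =>
    rw [pow_succ, ih, monIdeal, Ideal.span_mul_span']
    congr 1
    ext f
    constructor
    · rintro ⟨_, ⟨a, ha, rfl⟩, _, ⟨b, hb, rfl⟩, rfl⟩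
      exact ⟨a + b, add_mem ha (Finset.mem_coe.1 hb), by simp only [monomial_mul, mul_one]⟩
    · rintro ⟨c, hc, rfl⟩
      obtain ⟨g, hg, hle, hPl⟩ := exists_sub hc
      refine ⟨_, ⟨c - g, hPl, rfl⟩, _, ⟨g, Finset.mem_coe.2 hg, rfl⟩, ?_⟩
      simp only [monomial_mul, mul_one]
      rw [tsub_add_cancel_of_le hle]

theorem mem_pow (k : Type*) [Field k] (ℓ : ℕ) (p : MvPolynomial (Fin 9) k) :
    p ∈ monIdeal k GG ^ ℓ ↔ ∀ c ∈ p.support, Pl ℓ ⇑c := by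
  rw [pow_eq', mem_ideal_span_monomial_image]
  refine forall₂_congr fun c _ => ?_
  constructor
  · rintro ⟨s, hs, hle⟩
    exact Pl_mono ℓ _ _ hs hle
  · intro h
    exact ⟨c, h, le_rfl⟩

end Pool.Agent.X317.RP
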