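import Mathlib
import Pool.Agent.X317.RP.Powers

/-!
# The sixth Betti number of the powers
-/

set_option autoImplicit false
set_option linter.all false

open Finset Pool.Agent.H677R3.EdgeReg MvPolynomial Pool.Agent.X317.Kos

namespace Pool.Agent.X317.RP

variable {k : Type*} [Field k]

/-- the multidegree with homology -/
noncomputable def bst (ℓ : ℕ) : Fin 9 →₀ ℕ :=
  Finsupp.equivFunOnFinite.symm (fun v => if v = 8 then ℓ else if v = 6 ∨ v = 7 then 3 else 1)

theorem bst_apply (ℓ : ℕ) (v : Fin 9) :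
    bst ℓ v = if v = 8 then ℓ else if v = 6 ∨ v = 7 then 3 else 1 := rfl

theorem bst_8 (ℓ : ℕ) : bst ℓ 8 = ℓ := rfl

theorem bst_6 (ℓ : ℕ) : bst ℓ 6 = 3 := rfl

theorem bst_7 (ℓ : ℕ) : bst ℓ 7 = 3 := rfl

theorem bst_v (ℓ : ℕ) {v : Fin 9} (h6 : v ≠ 6) (h7 : v ≠ 7) (h8 : v ≠ 8) : bst ℓ v = 1 := by
  rw [bst_apply, if_neg h8, if_neg (not_or.2 ⟨h6, h7⟩)]

theorem ind_le_one {n : ℕ} (T : Finset (Fin n)) (v : Fin n) : ind T v ≤ 1 := by
  rw [ind_apply]
  split_ifs <;> omega

theorem ind_pos {n : ℕ} {T : Finset (Fin n)} {v : Fin n} : ind T v = 1 ↔ v ∈ T := by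
  rw [ind_apply]
  by_cases h : v ∈ T
  · simp [h]
  · simp [h]

theorem mem_EE {v : Fin 9} : v ∈ EE ↔ v = 6 ∨ v = 7 ∨ v = 8 := by
  unfold EE
  simp

theorem EE_subset {T : Finset (Fin 9)} (h6 : 6 ∈ T) (h7 : 7 ∈ T) (h8 : 8 ∈ T) : EE ⊆ T := by
  intro v hv
  rcases mem_EE.1 hv with rfl | rfl | rfl
  · exact h6
  · exact h7
  · exact h8

theorem KK_bst {ℓ : ℕ} (hℓ : 1 ≤ ℓ) (T : Finset (Fin 9)) :
    KK (Pl ℓ) (bst ℓ) T ↔ ¬ Fsp T := by
  have hle : ind T ≤ bst ℓ := by
    intro v
    have := ind_le_one T v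
    rw [bst_apply]
    split_ifs <;> omega
  have h6 := ind_le_one T 6
  have h7 := ind_le_one T 7
  have h8 := ind_le_one T 8
  unfold KK
  rw [and_iff_right hle]
  unfold Pl
  simp only [Finsupp.coe_tsub, Pi.sub_apply, bst_6, bst_7, bst_8]
  constructor
  · rintro ⟨h1, h2⟩ ⟨h3, h4⟩
    have e6 : ind T 6 = 1 := ind_pos.2 (h3 (by decide))
    have e7 : ind T 7 = 1 := ind_pos.2 (h3 (by decide))
    have e8 : ind T 8 = 1 := ind_pos.2 (h3 (by decide))
    obtain ⟨G, hG, hg⟩ := h2 (by omega) (by omega) (by omega)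
    refine h4 G hG fun g hgG => ?_
    have h5 := NF_lt G hG g hgG
    have h6 := hg g hgG
    rw [bst_v ℓ h5.1 h5.2.1 h5.2.2] at h6
    rw [Finset.mem_compl]
    intro h7
    have := ind_pos.2 h7
    omega
  · intro hF
    refine ⟨by omega, fun h1 h2 h3 => ?_⟩
    have hE : EE ⊆ T := EE_subset (ind_pos.1 (by omega)) (ind_pos.1 (by omega))
      (ind_pos.1 (by omega))
    unfold Fsp at hF
    push Not at hF
    obtain ⟨G, hG, hGT⟩ := hF hE
    refine ⟨G, hG, fun g hg => ?_⟩
    have h5 := NF_lt G hG g hg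
    rw [bst_v ℓ h5.1 h5.2.1 h5.2.2, ind_apply, if_neg (Finset.mem_compl.1 (hGT hg))]

/-- the position with respect to the last three variables -/
noncomputable def kap (T : Finset (Fin 9)) : ℕ := 7 - (ind T 6 + 2 * ind T 7 + 4 * ind T 8)

theorem kap_eq {T T' : Finset (Fin 9)} (h : kap T = kap T') :
    ind T 6 = ind T' 6 ∧ ind T 7 = ind T' 7 ∧ ind T 8 = ind T' 8 := by
  have h6 := ind_le_one T 6
  have h7 := ind_le_one T 7
  have h8 := ind_le_one T 8
  have h6' := ind_le_one T' 6
  have h7' := ind_le_one T' 7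
  have h8' := ind_le_one T' 8
  unfold kap at h
  omega

theorem ind_insert_ge {n : ℕ} (T : Finset (Fin n)) (j v : Fin n) :
    ind T v ≤ ind (insert j T) v := by
  rw [ind_apply, ind_apply]
  split_ifs with h h'
  · exact le_rfl
  · exact absurd (Finset.mem_insert_of_mem h) h'
  · omega
  · exact le_rfl

theorem ind_insert_ne {n : ℕ} (T : Finset (Fin n)) {j v : Fin n} (h : v ≠ j) :
    ind (insert j T) v = ind T v := by
  rw [ind_apply, ind_apply]
  simp [h]

theorem Pl_congr {ℓ : ℕ} {c c' : Fin 9 → ℕ} (h6 : c 6 = c' 6) (h7 : c 7 = c' 7)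
    (h8 : c 8 = c' 8) (h : ∀ g, g ∉ EE → (1 ≤ c g ↔ 1 ≤ c' g)) : Pl ℓ c ↔ Pl ℓ c' := by
  unfold Pl
  rw [h6, h7, h8]
  refine and_congr_right fun _ => ?_
  refine imp_congr_right fun _ => imp_congr_right fun _ => imp_congr_right fun _ => ?_
  refine exists_congr fun G => and_congr_right fun hG => forall₂_congr fun g hg => ?_
  refine h g ?_
  have := NF_lt G hG g hg
  rw [mem_EE, not_or, not_or]
  exact this

theorem ind_le_insert_iff {b : Fin 9 →₀ ℕ} {v : Fin 9} (hv : 1 ≤ b v) (T : Finset (Fin 9)) :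
    ind T ≤ b ↔ ind (insert v T) ≤ b := by
  constructor
  · intro h g
    by_cases hg : g = v
    · rw [hg]
      exact (ind_le_one _ _).trans hv
    · rw [ind_insert_ne T hg]
      exact h g
  · intro h g
    exact (ind_insert_ge T v g).trans (h g)

theorem relAcyc_main {ℓ : ℕ} {b : Fin 9 →₀ ℕ} (hb : b ≠ bst ℓ) :
    RelAcyc k (fun T => ind T ≤ b ∧ ¬ Pl ℓ ⇑(b - ind T)) 7 := by
  classical
  by_cases h2 : ∃ v, v ∉ EE ∧ 2 ≤ b v
  · obtain ⟨v, hvE, hv⟩ := h2
    rw [mem_EE, not_or, not_or] at hvE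
    refine relAcyc_toggle _ 7 v fun T hvT => ?_
    refine and_congr (ind_le_insert_iff (by omega) T) (not_congr ?_)
    refine Pl_congr ?_ ?_ ?_ ?_
    · simp only [Finsupp.coe_tsub, Pi.sub_apply, ind_insert_ne T (Ne.symm hvE.1)]
    · simp only [Finsupp.coe_tsub, Pi.sub_apply, ind_insert_ne T (Ne.symm hvE.2.1)]
    · simp only [Finsupp.coe_tsub, Pi.sub_apply, ind_insert_ne T (Ne.symm hvE.2.2)]
    · intro g _
      simp only [Finsupp.coe_tsub, Pi.sub_apply]
      by_cases hg : g = v
      · have h3 := ind_le_one T v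
        have h4 := ind_le_one (insert v T) v
        rw [hg]
        omega
      · rw [ind_insert_ne T hg]
  · push Not at h2
    refine relAcyc_filtration _ 7 kap ?_ ?_ fun t => ?_
    · rintro T j ⟨hT1, hT2⟩ hj i hi ⟨h3, h4⟩
      refine ⟨fun v => (ind_insert_ge _ i v).trans (h3 v), fun h5 => hT2 (Pl_mono ℓ _ _ h5 ?_)⟩
      intro v
      simp only [Finsupp.coe_tsub, Pi.sub_apply]
      have := ind_insert_ge T j v
      omega
    · intro T j hj _ _
      have h6 := ind_insert_ge T j 6
      have h7 := ind_insert_ge T j 7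
      have h8 := ind_insert_ge T j 8
      unfold kap
      omega
    · by_cases he : ∀ T : Finset (Fin 9),
          ((ind T ≤ b ∧ ¬ Pl ℓ ⇑(b - ind T)) ∧ kap T = t) → T.card = 7 → False
      · exact relAcyc_of_empty _ 7 he
      · push Not at he
        obtain ⟨T0, ⟨⟨hT1, hT2⟩, hT3⟩, hT4, -⟩ := he
        obtain ⟨v, hvT, hvE⟩ : ∃ v ∈ T0, v ∉ EE := by
          by_contra hcon
          push Not at hcon
          have := Finset.card_le_card (show T0 ⊆ EE from hcon)
          rw [hT4] at this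
          exact absurd this (by decide)
        have hbv : 1 ≤ b v := by
          have := hT1 v
          rw [ind_pos.2 hvT] at this
          exact this
        refine relAcyc_levels (C := fun T => ind T ≤ b ∧ kap T = t) v ?_ ?_ ?_
        · intro T hvT'
          refine and_congr (ind_le_insert_iff hbv T) ?_
          rw [mem_EE, not_or, not_or] at hvE
          unfold kap
          rw [ind_insert_ne T (Ne.symm hvE.1), ind_insert_ne T (Ne.symm hvE.2.1),
            ind_insert_ne T (Ne.symm hvE.2.2)]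
        · rintro T ⟨⟨h3, h4⟩, h5⟩
          exact ⟨h3, h5⟩
        · rintro T ⟨h3, h4⟩ hcard
          refine ⟨⟨h3, fun hPl => ?_⟩, h4⟩
          obtain ⟨k6, k7, k8⟩ := kap_eq (h4.trans hT3.symm)
          have hT2' := hT2
          unfold Pl at hPl hT2
          simp only [Finsupp.coe_tsub, Pi.sub_apply] at hPl hT2
          rw [← k6, ← k7, ← k8] at hT2
          obtain ⟨hPl1, hPl2⟩ := hPl
          have hT5 : ¬ ((ℓ - (b 8 - ind T 8) = 1 → b 6 - ind T 6 = 2 → b 7 - ind T 7 = 2 →
              ∃ G ∈ NF, ∀ g ∈ G, 1 ≤ b g - ind T0 g)) := fun h => hT2 ⟨hPl1, h⟩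
          push Not at hT5
          obtain ⟨m8, m6, m7, -⟩ := hT5
          obtain ⟨G, hG, hg⟩ := hPl2 m8 m6 m7
          have hgT : ∀ g ∈ G, g ∉ T := by
            intro g hgG hgT
            have h5 := NF_lt G hG g hgG
            have h6 := h2 g (by rw [mem_EE, not_or, not_or]; exact h5)
            have h7 := hg g hgG
            rw [ind_pos.2 hgT] at h7
            omega
          have hTG : T = Gᶜ := by
            have h5 : T ⊆ Gᶜ := by
              intro x hx
              rw [Finset.mem_compl]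
              exact fun hxG => hgT x hxG hx
            refine Finset.eq_of_subset_of_card_le h5 ?_
            rw [Finset.card_compl, NF_card G hG, Fintype.card_fin]
            omega
          have hE : EE ⊆ T := by
            rw [hTG]
            exact NF_EE G hG
          apply hb
          ext x
          rw [bst_apply]
          by_cases x8 : x = 8
          · rw [if_pos x8, x8]
            have h5 := h3 8
            rw [ind_pos.2 (hE (by decide))] at m8 h5
            omega
          · rw [if_neg x8]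
            by_cases x67 : x = 6 ∨ x = 7
            · rw [if_pos x67]
              rcases x67 with rfl | rfl
              · have h5 := h3 6
                rw [ind_pos.2 (hE (by decide))] at m6 h5
                omega
              · have h5 := h3 7
                rw [ind_pos.2 (hE (by decide))] at m7 h5
                omega
            · rw [if_neg x67]
              rw [not_or] at x67
              have h6 := h2 x (by rw [mem_EE, not_or, not_or]; exact ⟨x67.1, x67.2, x8⟩)
              have h7 : 1 ≤ b x := by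
                by_cases hxG : x ∈ G
                · have := hg x hxG
                  omega
                · have hxT : x ∈ T := by
                    rw [hTG, Finset.mem_compl]
                    exact hxG
                  have := h3 x
                  rw [ind_pos.2 hxT] at this
                  exact this
              omega

theorem ideal_acyc {ℓ : ℕ} {b : Fin 9 →₀ ℕ}
    (h : RelAcyc k (fun T => ind T ≤ b ∧ ¬ Pl ℓ ⇑(b - ind T)) 7) (a : Finset (Fin 9) → k)
    (ha : ∀ T, a T ≠ 0 → KK (Pl ℓ) b T ∧ T.card = 6) (hc : ∀ T, cd a T = 0) :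
    ∃ g : Finset (Fin 9) → k, (∀ T, g T ≠ 0 → KK (Pl ℓ) b T ∧ T.card = 6 + 1) ∧
      ∀ T, cd g T = a T := by
  classical
  have hsub : ∀ T, ind T ≤ b ↔ T ⊆ b.support := by
    intro T
    constructor
    · intro h g hg
      have := h g
      rw [ind_pos.2 hg] at this
      rw [Finsupp.mem_support_iff]
      omega
    · intro h g
      rw [ind_apply]
      split_ifs with hg
      · have := Finsupp.mem_support_iff.1 (h hg)
        omega
      · exact Nat.zero_le _
  by_cases hz : ∀ T, a T = 0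
  · exact ⟨fun _ => 0, fun T h => absurd rfl h, fun T => by rw [cd_zero, hz]⟩
  push Not at hz
  obtain ⟨T0, hT0⟩ := hz
  have h1 := ha T0 hT0
  obtain ⟨v, hv⟩ : T0.Nonempty := Finset.card_pos.1 (by omega)
  refine acyc_of_rel b.support ⟨v, (hsub T0).1 h1.1.1 hv⟩ (KK (Pl ℓ) b)
    (fun T hT => (hsub T).1 hT.1) ?_ 6 ?_ a ha hc
  · rintro T j hj ⟨h3, h4⟩
    refine ⟨fun v => (ind_insert_ge _ j v).trans (h3 v), Pl_mono ℓ _ _ h4 ?_⟩
    intro v
    simp only [Finsupp.coe_tsub, Pi.sub_apply]
    have := ind_insert_ge T j v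
    omega
  · have heq : (fun T => T ⊆ b.support ∧ ¬ KK (Pl ℓ) b T) =
        fun T => ind T ≤ b ∧ ¬ Pl ℓ ⇑(b - ind T) := by
      funext T
      unfold KK
      rw [← hsub T]
      apply propext
      tauto
    rw [heq]
    exact h

/-- **The sixth Betti number of the powers.** -/
theorem main (k : Type*) [Field k] {ℓ : ℕ} (hℓ : 1 ≤ ℓ) :
    ((2 : k) ≠ 0 → betti (n := 9) k ↥(monIdeal k GG ^ ℓ) 6 = 0) ∧
    ((2 : k) = 0 → betti (n := 9) k ↥(monIdeal k GG ^ ℓ) 6 = 1) := by
  classical
  have hQ : ∀ T, (ind T ≤ bst ℓ ∧ ¬ Pl ℓ ⇑(bst ℓ - ind T)) ↔ Fsp T := by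
    intro T
    have h := KK_bst hℓ T
    unfold KK at h
    have hle : ind T ≤ bst ℓ := by
      intro v
      have := ind_le_one T v
      rw [bst_apply]
      split_ifs <;> omega
    rw [and_iff_right hle] at h ⊢
    rw [h, not_not]
  constructor
  · intro h2
    refine betti_zero (mem_pow k ℓ) fun b a ha hc => ideal_acyc ?_ a ha hc
    by_cases hb : b = bst ℓ
    · subst hb
      have heq : (fun T => ind T ≤ bst ℓ ∧ ¬ Pl ℓ ⇑(bst ℓ - ind T)) = Fsp := by
        funext T
        exact propext (hQ T)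
      rw [heq]
      exact acyc_ne_two h2
    · exact relAcyc_main hb
  · intro h2
    obtain ⟨h3, h4, h5⟩ := ideal_side (Kf := KK (Pl ℓ) (bst ℓ)) (Q := Fsp) (0 : Fin 9) (i := 6)
      (fun T => by rw [KK_bst hℓ, not_not]) (fun T j hT => Fsp_insert hT j) (A0 k) A0_supp
      (fun T hT => by rw [cd_A0 h2 hT.1, pl_of_Fsp hT]) (A0_not h2) (A0_span h2)
    exact betti_one (mem_pow k ℓ) (bst ℓ) (cd (A0 k)) h3 (cd_cd (A0 k)) h4 h5
      fun b hb a ha hc => ideal_acyc (relAcyc_main hb) a ha hc

end Pool.Agent.X317.RP
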